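import Pool.Agent.W719.AX.Stp
import Pool.Agent.W247.AR.MainD

/-!
# AX-MAINX (helper719): expansions, the induction over the tree
-/

set_option autoImplicit false

namespace Pool.Agent.W688.AX

open Finset Filter Topology Metric
open Pool.Agent.W711.HT hiding XX
open Pool.Agent.W719.AR
open Pool.Agent.W719.AX
open Pool.Agent.W247.AR
open scoped Real

/-- the induction over the tree -/
theorem mainx_ind {ρ τ κ c : ℝ} {s dl : ℂ → ℂ → ℂ} (hK : KD ρ τ κ c s dl) {D : ℕ}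
    {ε₀ C M ρ₂ τ₂ : ℝ}
    (h0 : GoodD ρ τ κ ε₀ D s 0 (fun _ _ => 1) (fun _ => 0))
    (hp : ∀ (t : ℕ) (X Y : ℕ → ℂ → ℂ) (F G : ℂ → ℂ), GoodD ρ τ κ ε₀ D s t X F →
      GoodD ρ τ κ ε₀ D s 1 Y G →
      GoodD ρ τ κ ε₀ D s (t + 1) (fun N ψ => X N ψ * Y N ψ) (fun ψ => F ψ + G ψ))
    (h0x : ∃ A : ℕ → ℂ → ℂ, GX ρ₂ τ₂ 0 (fun _ _ => 1) (fun _ => 0) A)
    (hpx : ∀ (m m' : ℕ) (X Y : ℕ → ℂ → ℂ) (F G : ℂ → ℂ) (A B : ℕ → ℂ → ℂ),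
      GX ρ₂ τ₂ m X F A → GX ρ₂ τ₂ m' Y G B →
      ∃ C : ℕ → ℂ → ℂ, GX ρ₂ τ₂ (m + m') (fun N ψ => X N ψ * Y N ψ) (fun ψ => F ψ + G ψ) C)
    (h1 : ∀ (t m : ℕ) (X : ℕ → ℂ → ℂ) (F : ℂ → ℂ) (A : ℕ → ℂ → ℂ), t ≤ D →
      GoodD ρ τ κ ε₀ D s t X F → GX ρ₂ τ₂ m X F A →
      ∀ a : ℤ, M ≤ |(a : ℝ)| → ∃ (F' : ℂ → ℂ) (zs : ℂ → ℂ) (A' : ℕ → ℂ → ℂ),
        GoodD ρ τ κ ε₀ D s 1 (stp a X) F' ∧ GX ρ₂ τ₂ (m + 1) (stp a X) F' A' ∧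
        ‖F' 0 - F 0 - s 0 0‖ ≤ C / |(a : ℝ)| ∧
        ∀ ψ' ∈ Rc (3 * ρ) (3 * τ), CPt C ρ τ a (zs ψ') ∧
          Complex.I * a * zs ψ' / (2 * π) + Complex.I + deriv F (zs ψ') +
            deriv (fun w => s w ψ') (zs ψ') = 0 ∧
          F' ψ' = qq a F (zs ψ') + s (zs ψ') ψ' ∧
          HasDerivAt F' (deriv (fun w => s (zs ψ') w) ψ') ψ')
    (t : Tr) : t.Big M D → ∃ (F : ℂ → ℂ) (A : ℕ → ℂ → ℂ), GoodD ρ τ κ ε₀ D s t.nc (XX t) F ∧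
      GX ρ₂ τ₂ (ne t) (XX t) F A ∧ t.nc ≤ D ∧
      ∀ ψ ∈ Rc (3 * ρ) (3 * τ), ∃ p : PT, p.shape = t ∧ p.rz = ψ ∧ p.Crt s C ρ τ ∧
        F ψ = p.vl s ∧ HasDerivAt F (p.gs s) ψ := by
  induction t with
  | vx a =>
    intro _
    obtain ⟨A, hA⟩ := h0x
    refine ⟨fun _ => 0, A, ?_, ?_, Nat.zero_le _, ?_⟩
    · simpa [XX, Tr.nc] using h0
    · exact hA
    · intro ψ _
      exact ⟨.vx a ψ, rfl, rfl, trivial, rfl, by simpa [PT.gs] using hasDerivAt_const ψ (0 : ℂ)⟩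
  | br t c iht ihc =>
    intro hB
    obtain ⟨hBt, hBc, hD⟩ := hB
    obtain ⟨F, A, hG, hA, hn, hcr⟩ := iht hBt
    obtain ⟨Fc, Ac, hGc, hAc, hnc, hcrc⟩ := ihc hBc
    obtain ⟨F', zs, A', hG', hA', _, hcr'⟩ := h1 c.nc (ne c) (XX c) Fc Ac hnc hGc hAc c.wt
      (big_wt_le hBc)
    obtain ⟨A'', hA''⟩ := hpx (ne t) (ne c + 1) (XX t) (stp c.wt (XX c)) F F' A A' hA hA'
    refine ⟨fun ψ => F ψ + F' ψ, A'', ?_, ?_, hD, ?_⟩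
    · exact hp t.nc (XX t) (stp c.wt (XX c)) F F' hG hG'
    · exact hA''
    · intro ψ hψ
      obtain ⟨p, hp1, hp2, hp3, hp4, hp5⟩ := hcr ψ hψ
      obtain ⟨hz, heq, hval, hder⟩ := hcr' ψ hψ
      obtain ⟨q, hq1, hq2, hq3, hq4, hq5⟩ := hcrc (zs ψ) (Rc_subD hK.hρ.1 hK.hτ.1 hz.mem)
      have hw : q.wt = c.wt := by rw [← shape_wt q, hq1]
      refine ⟨.br p q, ?_, hp2, ?_, ?_, ?_⟩
      · simp [PT.shape, hp1, hq1]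
      · refine ⟨hp3, hq3, ?_, ?_⟩
        · rw [hw, hq2]
          exact hz
        · rw [hw, hq2, hp2, ← hq5.deriv]
          exact heq
      · simp only [PT.vl]
        rw [hw, hq2, hp2, hp4, hval, qq, hq4]
      · simp only [PT.gs]
        rw [hq2, hp2]
        exact hp5.add hder

theorem mainx : S_KER → S_KXC → S_STEPX → S_PRD → S_PRDX → S_MAINX := by
  rintro ⟨ρ, τ, κ, c, s, dl, hK⟩ hKX hS hP hPX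
  obtain ⟨ρ₂, τ₂, hρ₂, hτ₂, Ak, hAk⟩ := hKX ρ τ κ c s dl hK
  refine ⟨ρ, τ, κ, c, s, dl, hK, ?_⟩
  intro D hD
  obtain ⟨ε₀, C, M, hε, hC, hM, h1, h2⟩ := hS ρ τ κ c s dl hK ρ₂ τ₂ Ak hρ₂ hτ₂ hAk D hD
  obtain ⟨h0, hp⟩ := hP ρ τ κ c s dl hK ε₀ D hε hD
  obtain ⟨h0x, hpx⟩ := hPX ρ₂ τ₂
  refine ⟨C, M, hC, hM, ?_⟩
  intro t hB ht
  obtain ⟨F, A, hG, hA, hn, hcr⟩ := mainx_ind hK h0 hp h0x hpx h1 t hB
  obtain ⟨z, y, hz, heq, _, hy0, hux⟩ := h2 t.nc (ne t) (XX t) F A ht hn hG hA t.wt (big_wt_le hB)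
  obtain ⟨p, hp1, hp2, hp3, hp4, hp5⟩ := hcr z (Rc_subD hK.hρ.1 hK.hτ.1 hz.mem)
  have hw : p.wt = t.wt := by rw [← shape_wt p, hp1]
  refine ⟨p, y, hp1, hp3, ?_, ?_, hy0, ?_⟩
  · rw [hw, hp2]
    exact hz
  · rw [hw, hp2, ← hp5.deriv]
    exact heq
  · rw [hw, hp2, ← hp4]
    exact hux

end Pool.Agent.W688.AX
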