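import Pool.Agent.W688.AX.StepXa

/-!
# AX-STEPX (helper719): the induction step with expansions
-/

set_option autoImplicit false
set_option maxHeartbeats 1000000

namespace Pool.Agent.W688.AX

open Filter Finset Topology Metric
open Pool.Agent.W711.HT hiding XX
open Pool.Agent.W719.AR
open Pool.Agent.W719.AX
open Pool.Agent.W85.HT
open Pool.Agent.W179.AR
open scoped Real

theorem stepx : S_CPDX → S_LAPINT → S_SEQ → S_STPE → S_UPB → S_LOCG → S_LOCX → S_UXAN →
    S_STEPX := by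
  intro hCP hLI hSEQ hSTPE hUPB hLG hLX hUA ρ τ κ c s dl hK ρ₂ τ₂ Ak hρ₂ hτ₂ hAk D hD
  obtain ⟨ε₀, C, M₀, hε0, hε1, hC, hM₀, hCM₀, hcp₀⟩ := hCP ρ τ κ c s dl hK D hD
  have hρ20 := hAk.hρ
  have hτ20 := hAk.hτ
  obtain ⟨M, hMM, hM, hsm⟩ := choiceM (r := min ρ₂ τ₂ / 4) hC hM₀
    (by have := lt_min hρ20 hτ20; positivity)
  have hCM : C / M ≤ κ / 16 := (div_le_div_of_nonneg_left hC.le hM₀ hMM).trans hCM₀
  have hcp := fun t F h1 h2 h3 h4 (a : ℤ) (h5 : M ≤ |(a : ℝ)|) =>
    hcp₀ t F h1 h2 h3 h4 a (hMM.trans h5)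
  have hane : ∀ a : ℤ, M ≤ |(a : ℝ)| → a ≠ 0 := by
    intro a ha h
    rw [h, Int.cast_zero, abs_zero] at ha
    linarith
  have hD' : (1 : ℝ) ≤ D := by exact_mod_cast hD
  obtain ⟨hρ0, hρ1⟩ := hK.hρ
  obtain ⟨hτ0, hτ1⟩ := hK.hτ
  obtain ⟨hκ0, hκ1⟩ := hK.hκ
  have hπ := Real.pi_gt_three
  have hρπ : ρ ≤ π := by linarith
  have m0 : (0 : ℂ) ∈ Rc (3 * ρ) (3 * τ) := by
    refine ⟨?_, ?_⟩
    · rw [Complex.zero_re, abs_zero]; linarith
    · rw [Complex.zero_im, abs_zero]; linarith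
  have hCa : ∀ a : ℤ, M ≤ |(a : ℝ)| → C / |(a : ℝ)| ≤ κ / 16 := by
    intro a ha
    exact (div_le_div_of_nonneg_left hC.le hM ha).trans hCM
  have hCPt : ∀ (a : ℤ) (z : ℂ), M ≤ |(a : ℝ)| → CPt C ρ τ a z → |z.re| < ρ ∧ 0 < z.im ∧ z.im < τ := by
    intro a z ha hz
    have ha0 : (a : ℝ) ≠ 0 := by
      intro h
      rw [h, abs_zero] at ha
      linarith
    have h1 : 0 < z.im := lt_of_lt_of_le (by positivity) hz.im
    refine ⟨hz.mem.1, h1, ?_⟩
    have := hz.mem.2
    rwa [abs_of_pos h1] at this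
  have hFc : ∀ (t : ℕ) (X : ℕ → ℂ → ℂ) (F : ℂ → ℂ), t ≤ D → GoodD ρ τ κ ε₀ D s t X F →
      ∀ ψ ∈ Rc (3 * ρ) (3 * τ), ‖F ψ - F 0 - t * (s 0 ψ - s 0 0)‖ ≤ ε₀ := by
    intro t X F ht hX ψ hψ
    refine (hX.Fcl ψ hψ).trans ?_
    have ht' : (t : ℝ) ≤ D := by exact_mod_cast ht
    rw [← mul_div_assoc, div_le_iff₀ (by linarith), mul_comm]
    exact mul_le_mul_of_nonneg_left ht' hε0.le
  have hgl : ∀ (t : ℕ) (X : ℕ → ℂ → ℂ) (F : ℂ → ℂ), t ≤ D → GoodD ρ τ κ ε₀ D s t X F →
      ∀ᶠ N : ℕ in atTop, ∀ x y : ℝ, |x| ≤ π → |y| ≤ 1 / N →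
        ‖X N (x + y * Complex.I)‖ ≤ Real.exp (N * ((F 0).re + κ / 2)) := by
    intro t X F ht hX
    filter_upwards [hX.gl] with N h1 x y hx hy
    refine (h1 x y hx hy).trans (Real.exp_le_exp.2 ?_)
    apply mul_le_mul_of_nonneg_left _ (Nat.cast_nonneg N)
    have ht' : (t : ℝ) ≤ D := by exact_mod_cast ht
    have k9 : (t : ℝ) * (κ / (2 * D)) ≤ D * (κ / (2 * D)) :=
      mul_le_mul_of_nonneg_right ht' (by positivity)
    have k10 : (D : ℝ) * (κ / (2 * D)) = κ / 2 := by field_simp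
    linarith
  refine ⟨ε₀, C, M, hε0, hC, hM, ?_, ?_⟩
  · -- the step
    intro t m X F A ht hX hA a ha
    obtain ⟨⟨F', zs, hF'd, hzd, hF'e, hF'c, hF'n, hF'z⟩, -⟩ :=
      hcp t F ht hX.Fan hX.Fev (hFc t X F ht hX) a ha
    have hC1 := hCa a ha
    have h00 : ‖F' 0 - F 0 - s 0 0‖ ≤ C / |(a : ℝ)| := hF'n 0 m0
    -- lower bounds for `Re F'`
    have hlow : ∀ ψ ∈ Rc (3 * ρ) (3 * τ), (F 0).re + (s 0 ψ).re - κ / 16 ≤ (F' ψ).re := by
      intro ψ hψ
      have h1 := (hF'n ψ hψ).trans hC1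
      have h2 := (Complex.abs_re_le_norm _).trans h1
      rw [Complex.sub_re, Complex.sub_re] at h2
      linarith [(abs_le.1 h2).1]
    have hpos : ∀ ψ ∈ Rc (3 * ρ) (3 * τ), κ / 2 ≤ (F' ψ).re := by
      intro ψ hψ
      have h1 := hlow ψ hψ
      have h2 := hK.slow ψ hψ
      have h3 := hX.pos
      linarith
    have hF0 : (F 0).re + 2 * bet - κ / 16 ≤ (F' 0).re := by
      have h1 := hlow 0 m0
      rw [hK.zero, Complex.ofReal_re] at h1
      exact h1
    obtain ⟨hA1, hA2⟩ := hSTPE a X hX.an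
    have hcont : ∀ N ψ', Continuous (fun w => X N w * Pool.Agent.W711.HT.ker N w ψ') := fun N ψ' =>
      (hX.an N).continuous.mul (ker_diff N ψ').continuous
    have hKK : Kc (2 * ρ) (2 * τ) ⊆ Rc (3 * ρ) (3 * τ) := by
      intro w hw
      rw [Kc_mem] at hw
      exact ⟨by linarith [hw.1], by linarith [hw.2]⟩
    have hRK : Rc (2 * ρ) (2 * τ) ⊆ Kc (2 * ρ) (2 * τ) := by
      intro w hw
      rw [Kc_mem]
      exact ⟨hw.1.le, hw.2.le⟩
    have hR23 : Rc (2 * ρ) (2 * τ) ⊆ Rc (3 * ρ) (3 * τ) := hRK.trans hKK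
    have hscont : ContinuousOn (fun p : ℂ × ℂ => s p.1 p.2) (Kc (2 * ρ) (2 * τ) ×ˢ Kc (2 * ρ) (2 * τ)) :=
      hK.san.continuousOn.mono (Set.prod_mono hKK hKK)
    -- the limit along sequences
    have hseq : ∀ (p : ℕ → ℂ) (p₀ : ℂ), p₀ ∈ Kc (2 * ρ) (2 * τ) → (∀ N, p N ∈ Kc (2 * ρ) (2 * τ)) →
        Tendsto p atTop (𝓝 p₀) →
        Tendsto (fun N => Real.log ‖stp a X N (p N)‖ / N) atTop (𝓝 (F' p₀).re) := by
      intro p p₀ hp0 hp hlim
      obtain ⟨hz1, hz2, hz3, hz4, -⟩ := hF'z p₀ (hKK hp0)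
      obtain ⟨z1, z2, z3⟩ := hCPt a _ ha hz1
      have hsd : DifferentiableOn ℂ (fun w => s w p₀) (Rc (3 * ρ) (3 * τ)) := by
        have : DifferentiableOn ℂ (fun w : ℂ => (w, p₀)) (Rc (3 * ρ) (3 * τ)) :=
          (differentiable_id.prodMk (differentiable_const p₀)).differentiableOn
        exact hK.san.comp this (fun w hw => ⟨hw, hKK hp0⟩)
      have hV : (qq a (fun w => F w + s w p₀) (zs p₀)).re = (F' p₀).re := by
        have e : qq a (fun w => F w + s w p₀) (zs p₀) = qq a F (zs p₀) + s (zs p₀) p₀ := by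
          unfold qq; ring
        rw [e, hz4]
      have hnear := lap_strong hLI (Y := fun N w => X N w * Pool.Agent.W711.HT.ker N w (p N))
        (G := fun w => F w + s w p₀) (a := a) (z := zs p₀) hρ0 hτ0 (by linarith)
        (by
          filter_upwards with N
          exact ((hX.an N).mul (ker_diff N (p N))).differentiableOn)
        ((hX.Fan.add hsd).mono hR23)
        (by
          intro ε hε
          filter_upwards [hX.mw (ε / 3) (by positivity), hK.mw (ε / 3) (by positivity),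
            unif (Kc_compact _ _) hscont hp hp0 hlim (ε := ε / 3) (by positivity)] with N h1 h2 h3 w hw
          obtain ⟨k1, k2⟩ := h1 w hw
          obtain ⟨k3, k4⟩ := h2 w (hR23 hw) (p N) (hKK (hp N))
          have k5 := h3 w (hRK hw)
          refine ⟨mul_ne_zero k1 k3, ?_⟩
          rw [norm_mul, Real.log_mul (norm_ne_zero_iff.2 k1) (norm_ne_zero_iff.2 k3), Complex.add_re]
          have k6 := (Complex.abs_re_le_norm _).trans k5.le
          rw [Complex.sub_re] at k6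
          have hN0 : (0 : ℝ) ≤ N := Nat.cast_nonneg N
          have k7 : |N * ((s w (p N)).re - (s w p₀).re)| ≤ N * (ε / 3) := by
            rw [abs_mul, abs_of_nonneg hN0]
            exact mul_le_mul_of_nonneg_left k6 hN0
          rw [abs_le] at k2 k4 k7 ⊢
          constructor
          · linarith [k2.1, k4.1, k7.1]
          · linarith [k2.2, k4.2, k7.2])
        z1 z2 z3 hz2
      rw [hV] at hnear
      have hsre : ∀ᶠ N : ℕ in atTop, (s 0 (p N)).re ≤ (s 0 p₀).re + κ / 16 := by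
        filter_upwards [unif (Kc_compact _ _) hscont hp hp0 hlim (ε := κ / 16) (by positivity)] with N h1
        have m0' : (0 : ℂ) ∈ Kc (2 * ρ) (2 * τ) := by
          rw [Kc_mem, Complex.zero_re, Complex.zero_im, abs_zero]
          constructor <;> linarith
        have k1 := (Complex.re_le_norm _).trans (h1 0 m0').le
        rw [Complex.sub_re] at k1
        linarith
      have hfull := full_lim hUPB (a := a) hρ0 hρπ (f := fun N w => X N w * Pool.Agent.W711.HT.ker N w (p N))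
        (V := (F' p₀).re) (κ := κ / 4) (by positivity) (fun N => hcont N (p N)) hnear
        (by
          filter_upwards [hgl t X F ht hX, hK.far, hsre] with N h1 h2 h3 x y hx1 hx2 hy
          have k1 := h1 x y hx2 hy
          have k2 := h2 x y hx1 hx2 hy (p N) (hKK (hp N))
          show ‖X N (x + y * Complex.I) * Pool.Agent.W711.HT.ker N (x + y * Complex.I) (p N)‖ ≤ _
          rw [norm_mul]
          refine (mul_le_mul k1 k2 (norm_nonneg _) (Real.exp_pos _).le).trans ?_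
          rw [← Real.exp_add, ← mul_add]
          apply Real.exp_le_exp.2
          apply mul_le_mul_of_nonneg_left _ (Nat.cast_nonneg N)
          have k3 := hlow p₀ (hKK hp0)
          linarith)
      refine hfull.congr fun N => ?_
      rw [stp_eq]
    have hunif := hSEQ ℂ (Kc (2 * ρ) (2 * τ)) (Kc_compact _ _) (fun N ψ' => Real.log ‖stp a X N ψ'‖ / N)
      (fun ψ' => (F' ψ').re) (Complex.continuous_re.comp_continuousOn (hF'd.continuousOn.mono hKK))
      hseq
    have hmw : MW (stp a X) F' (Rc (2 * ρ) (2 * τ)) := by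
      intro ε hε
      filter_upwards [hunif (min ε (κ / 4)) (lt_min hε (by positivity)), eventually_gt_atTop 0] with
        N h1 h2 ψ hψ
      have hN' : (0 : ℝ) < N := by exact_mod_cast h2
      have k1 := h1 ψ (hRK hψ)
      refine ⟨?_, ?_⟩
      · intro h0
        rw [h0, norm_zero, Real.log_zero, zero_div, zero_sub, abs_neg] at k1
        have k2 := hpos ψ (hR23 hψ)
        have k3 := (le_abs_self _).trans k1
        have k4 := min_le_right ε (κ / 4)
        linarith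
      · have k2 : |Real.log ‖stp a X N ψ‖ / N - (F' ψ).re| ≤ ε := k1.trans (min_le_left _ _)
        have k3 : Real.log ‖stp a X N ψ‖ - N * (F' ψ).re =
            N * (Real.log ‖stp a X N ψ‖ / N - (F' ψ).re) := by
          field_simp
        rw [k3, abs_mul, abs_of_pos hN', mul_comm ε]
        exact mul_le_mul_of_nonneg_left k2 hN'.le
    obtain ⟨Cu, hCu, hub⟩ := upp_bd hUPB a
    have hXn := X_nearD hK hD hε0 hX ht (ε := κ / 16) (by positivity)
    have hgl1 : ∀ᶠ N : ℕ in atTop, ∀ x y : ℝ, ρ ≤ |x| → |x| ≤ π → |y| ≤ 1 / N →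
        ‖stp a X N (x + y * Complex.I)‖ ≤ Real.exp (N * ((F' 0).re - κ / 2)) := by
      filter_upwards [hXn, hub ρ hρ0 hρπ, hgl t X F ht hX, hK.farg, hK.farb,
        ev_exp (show 0 < κ / 4 by positivity) (2 * Cu)] with N h1 h2 h3 h4 h5 h6 x' y' hx1' hx2' hy'
      rw [stp_eq]
      refine (h2 _ (Real.exp (N * ((F 0).re + ε₀ + κ / 16 + (2 * bet - 5 / 4 * κ))))
        (Real.exp (N * ((F 0).re + κ / 2 + (2 * bet - 2 * κ)))) (hcont N _) ?_ ?_).trans ?_
      · intro x y hx hy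
        have k1 := h1 x y hx hy
        have k2 := h4 x y x' y' (hx.trans hρπ) hx1' hx2' hy hy'
        rw [norm_mul]
        refine (mul_le_mul k1 k2 (norm_nonneg _) (Real.exp_pos _).le).trans ?_
        rw [← Real.exp_add, ← mul_add]
      · intro x y hx1 hx2 hy
        have k1 := h3 x y hx2 hy
        have k2 := h5 x y x' y' hx1 hx2 hx1' hx2' hy hy'
        rw [norm_mul]
        refine (mul_le_mul k1 k2 (norm_nonneg _) (Real.exp_pos _).le).trans ?_
        rw [← Real.exp_add, ← mul_add]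
      · refine sum_bd (κ := κ / 4) hCu.le ?_ ?_ h6
        · linarith
        · linarith
    obtain ⟨A', hA'⟩ := gx_step hLG hLX hUA hK hρ₂ hτ₂ hAk hC hX hA (hane a ha) hF'd hzd hlow
      (hgl t X F ht hX)
      (fun ψ' hψ' => ⟨(hF'z ψ' hψ').1, (hF'z ψ' hψ').2.1, (hF'z ψ' hψ').2.2.2.1⟩)
      (fun ψ' hψ' => hsm ρ τ a _ ha (hF'z ψ' hψ').1) hA1
    refine ⟨F', zs, A', ⟨hA1, hA2, ?_, hF'd, hF'e, ?_, hmw, ?_, fun _ => hgl1⟩, hA', h00, ?_⟩
    · have := hpos 0 m0
      linarith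
    · intro ψ hψ
      have := hF'c ψ hψ
      rw [Nat.cast_one, one_mul, Nat.cast_one, one_mul]
      exact this
    · -- gl
      have hev : ∀ᶠ N : ℕ in atTop, (1 : ℝ) / N < τ := by
        have : Tendsto (fun N : ℕ => (1 : ℝ) / (N : ℝ)) atTop (𝓝 0) :=
          tendsto_const_div_atTop_nhds_zero_nat _
        exact this.eventually_lt_const hτ0
      filter_upwards [hgl1, hmw (κ / (16 * D)) (by positivity),
        s_up hK (ε := κ / (16 * D)) (by positivity), hev] with N h1 h2 h3 h4 x y hx hy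
      have hN' : (0 : ℝ) ≤ N := Nat.cast_nonneg N
      rw [Nat.cast_one, one_mul]
      rcases le_total ρ |x| with hxρ | hxρ
      · refine (h1 x y hxρ hx hy).trans (Real.exp_le_exp.2 ?_)
        apply mul_le_mul_of_nonneg_left _ hN'
        have : 0 < κ / (2 * D) := by positivity
        linarith
      · have m1 : ((x : ℂ) + y * Complex.I) ∈ Rc (2 * ρ) (2 * τ) := by
          refine ⟨?_, ?_⟩
          · rw [xy_re]; linarith
          · rw [xy_im]; linarith
        obtain ⟨k1, k2⟩ := h2 _ m1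
        rw [← Real.log_le_iff_le_exp (norm_pos_iff.2 k1)]
        have k3 := (abs_le.1 k2).2
        have k4 := h3 x y hxρ hy
        have k5 := hF'c _ (hR23 m1)
        have k6 := (Complex.re_le_norm _).trans k5
        rw [Complex.sub_re, Complex.sub_re, Complex.sub_re, hK.zero, Complex.ofReal_re] at k6
        have e1 : ε₀ / D ≤ κ / (16 * D) := by
          rw [div_le_div_iff₀ (by linarith) (by linarith)]
          have := mul_le_mul_of_nonneg_right hε1 (by linarith : (0 : ℝ) ≤ 16 * D)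
          have e2 : κ / 16 * (16 * D) = κ * D := by ring
          linarith
        have e3 : κ / (2 * D) = 8 * (κ / (16 * D)) := by field_simp; norm_num
        have e4 : 0 < κ / (16 * D) := by positivity
        have k8 : (F' (x + y * Complex.I)).re + κ / (16 * D) ≤ (F' 0).re + κ / (2 * D) := by
          rw [e3]; linarith
        have k9 := mul_le_mul_of_nonneg_left k8 hN'
        linarith
    · intro ψ' hψ'
      obtain ⟨hz1, -, hz3, hz4, hz5⟩ := hF'z ψ' hψ'
      exact ⟨hz1, hz3, hz4, hz5⟩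
  · -- the last step
    intro t m X F A ht1 ht hX hA a ha
    obtain ⟨-, h2⟩ := hcp t F ht hX.Fan hX.Fev (hFc t X F ht hX) a ha
    obtain ⟨z, hz1, hz2, hz3, hz4⟩ := h2 ht1
    obtain ⟨y, hy0, hy⟩ := last_step hLG hLX hρ0 hρ1 hτ0 hρ20 hτ20 hρ₂ hτ₂ hC hX.an hX.Fan hX.mw hA
      (hane a ha) hz1 hz2 (hsm ρ τ a _ ha hz1)
      ⟨κ / 4, by positivity, by
        filter_upwards [hX.gl1 ht1] with N h1 x y hx1 hx2 hy
        refine (h1 x y hx1 hx2 hy).trans (Real.exp_le_exp.2 ?_)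
        apply mul_le_mul_of_nonneg_left _ (Nat.cast_nonneg N)
        have k1 := (Complex.abs_re_le_norm _).trans (hz4.trans (hCa a ha))
        rw [Complex.sub_re] at k1
        linarith [(abs_le.1 k1).1]⟩
    exact ⟨z, y, hz1, hz3, hz4, hy0, hy⟩

end Pool.Agent.W688.AX
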