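import Pool.Agent.W719.AX.Stp
import Pool.Agent.W179.AR.StepD
import Pool.Agent.W85.HT.Step

/-!
# AX-STEPX (helper719): preparations for the induction step with expansions
-/

set_option autoImplicit false
set_option maxHeartbeats 1000000

namespace Pool.Agent.W688.AX

open Filter Finset Topology Metric
open Pool.Agent.W711.HT hiding XX
open Pool.Agent.W719.AR
open Pool.Agent.W719.AX
open Pool.Agent.W85.HT
open scoped Real

lemma isOpen_Rcx (ρ τ : ℝ) : IsOpen (Rc ρ τ) := by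
  unfold Rc
  exact (isOpen_lt (continuous_abs.comp Complex.continuous_re) continuous_const).inter
    (isOpen_lt (continuous_abs.comp Complex.continuous_im) continuous_const)

lemma qq_diff {a : ℤ} {G : ℂ → ℂ} {U : Set ℂ} (hG : DifferentiableOn ℂ G U) :
    DifferentiableOn ℂ (qq a G) U := by
  have h1 : DifferentiableOn ℂ (fun w : ℂ => Complex.I * a * w ^ 2 / (4 * π) + Complex.I * w) U := by
    have : Differentiable ℂ (fun w : ℂ => Complex.I * a * w ^ 2 / (4 * π) + Complex.I * w) := by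
      fun_prop
    exact this.differentiableOn
  exact h1.add hG

/-- continuity of the second derivative at the critical point -/
lemma cont2 {a : ℤ} {F : ℂ → ℂ} {s : ℂ → ℂ → ℂ} {U V K : Set ℂ} (hU : IsOpen U) (hVc : IsCompact V)
    (hUV : U ⊆ V) (hF : DifferentiableOn ℂ F U)
    (hsd : ∀ p ∈ K, DifferentiableOn ℂ (fun w => s w p) U)
    (hsc : ContinuousOn (fun x : ℂ × ℂ => s x.1 x.2) (V ×ˢ K)) (hK : IsCompact K)
    {z : ℂ → ℂ} (hz : ContinuousOn z K) (hzU : ∀ p ∈ K, z p ∈ U) :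
    ContinuousOn (fun p => deriv (deriv (qq a (fun w => F w + s w p))) (z p)) K := by
  intro p₀ hp₀
  have hd : ∀ p ∈ K, DifferentiableOn ℂ (qq a (fun w => F w + s w p)) U := fun p hp =>
    qq_diff (hF.add (hsd p hp))
  have h1 : TendstoUniformlyOn (fun p => qq a (fun w => F w + s w p))
      (qq a (fun w => F w + s w p₀)) (𝓝[K] p₀) U := by
    rw [Metric.tendstoUniformlyOn_iff]
    intro ε hε
    have huc := (hVc.prod hK).uniformContinuousOn_of_continuous hsc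
    rw [Metric.uniformContinuousOn_iff] at huc
    obtain ⟨δ, hδ, hδ2⟩ := huc ε hε
    filter_upwards [self_mem_nhdsWithin, mem_nhdsWithin_of_mem_nhds (ball_mem_nhds p₀ hδ)] with
      p hp1 hp2 w hw
    have h1 := hδ2 (w, p₀) ⟨hUV hw, hp₀⟩ (w, p) ⟨hUV hw, hp1⟩ (by
      rw [Prod.dist_eq, dist_self]
      rw [mem_ball, dist_comm] at hp2
      exact max_lt hδ hp2)
    rw [dist_eq_norm] at h1 ⊢
    have e : qq a (fun w => F w + s w p₀) w - qq a (fun w => F w + s w p) w = s w p₀ - s w p := by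
      unfold qq; ring
    rw [e]
    exact h1
  have hev : ∀ᶠ p in 𝓝[K] p₀, p ∈ K := self_mem_nhdsWithin
  have h2 := h1.tendstoLocallyUniformlyOn.deriv (hev.mono fun p hp => hd p hp) hU
  have h3 := h2.deriv (hev.mono fun p hp => (hd p hp).deriv hU) hU
  have h4 : ContinuousWithinAt (deriv (deriv (qq a (fun w => F w + s w p₀)))) U (z p₀) :=
    ((hd p₀ hp₀).deriv hU).deriv hU |>.continuousOn _ (hzU p₀ hp₀)
  exact h3.tendsto_comp h4 (hzU p₀ hp₀)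
    (tendsto_nhdsWithin_iff.2 ⟨hz p₀ hp₀, hev.mono fun p hp => hzU p hp⟩)

lemma unif_neg {K : Set ℂ} (hK : IsCompact K) (hne : K.Nonempty) {f : ℂ → ℂ}
    (hf : ContinuousOn f K) (hneg : ∀ p ∈ K, (f p).re < 0) :
    ∃ c : ℝ, 0 < c ∧ ∀ p ∈ K, (f p).re ≤ -c := by
  obtain ⟨x, hx, hm⟩ := hK.exists_isMaxOn hne (Complex.continuous_re.comp_continuousOn hf)
  refine ⟨-(f x).re, by linarith [hneg x hx], fun p hp => ?_⟩
  have := hm hp
  simp only [Set.mem_ofPred_eq, Function.comp] at this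
  linarith

lemma sq3_ev {κ : ℝ} (hκ : 0 < κ) :
    ∀ᶠ N : ℕ in atTop, (Real.sqrt N) ^ 3 ≤ Real.exp (N * κ) := by
  have h1 : ∀ᶠ x : ℝ in atTop, ‖x ^ 2‖ ≤ 1 * ‖Real.exp (κ * x)‖ :=
    (isLittleO_pow_exp_pos_mul_atTop 2 hκ).bound one_pos
  have h2 := tendsto_natCast_atTop_atTop.eventually h1
  filter_upwards [h2, eventually_ge_atTop 1] with N h3 h4
  have hN : (1 : ℝ) ≤ N := by exact_mod_cast h4
  rw [one_mul, Real.norm_eq_abs, Real.norm_eq_abs, Real.abs_exp, abs_of_nonneg (by positivity)] at h3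
  have h5 : 1 ≤ Real.sqrt N := by
    rw [← Real.sqrt_one]
    exact Real.sqrt_le_sqrt hN
  have h6 : (Real.sqrt N) ^ 2 = N := Real.sq_sqrt (by linarith)
  have h7 : (Real.sqrt N) ^ 3 ≤ (N : ℝ) ^ 2 := by
    have e : (N : ℝ) ^ 2 = (Real.sqrt N) ^ 4 := by
      rw [← h6]; rw [← pow_mul]; rw [h6]
    rw [e]
    exact pow_le_pow_right₀ h5 (by norm_num)
  rw [mul_comm (N : ℝ)]
  linarith

lemma choiceM {C M r : ℝ} (hC : 0 < C) (hM : 0 < M) (hr : 0 < r) : ∃ M' : ℝ, M ≤ M' ∧ 0 < M' ∧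
    ∀ (ρ τ : ℝ) (a : ℤ) (z : ℂ), M' ≤ |(a : ℝ)| → CPt C ρ τ a z → ‖z‖ < r := by
  refine ⟨max M (max 1 ((2 * π + C) / r + 1)), le_max_left _ _,
    lt_of_lt_of_le hM (le_max_left _ _), ?_⟩
  intro ρ τ a z ha hz
  have hπ := Real.pi_pos
  have h1 : 1 ≤ |(a : ℝ)| := ((le_max_left _ _).trans (le_max_right _ _)).trans ha
  have h2 : (2 * π + C) / r + 1 ≤ |(a : ℝ)| :=
    ((le_max_right _ _).trans (le_max_right _ _)).trans ha
  have ha0 : 0 < |(a : ℝ)| := by linarith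
  have h3 : ‖z‖ ≤ 2 * π / |(a : ℝ)| + C / |(a : ℝ)| := by
    have n1 : ‖(2 * π / a : ℂ)‖ = 2 * π / |(a : ℝ)| := by
      rw [norm_div, norm_mul, Complex.norm_real, Real.norm_eq_abs, abs_of_pos hπ,
        Complex.norm_intCast]
      norm_num
    have n2 : C / (a : ℝ) ^ 2 ≤ C / |(a : ℝ)| := by
      rw [← sq_abs]
      exact div_le_div_of_nonneg_left hC.le ha0 (by nlinarith)
    have n3 : ‖z‖ ≤ ‖z + 2 * π / a‖ + ‖(2 * π / a : ℂ)‖ := by
      have := norm_sub_le (z + 2 * π / a) (2 * π / a : ℂ)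
      rwa [add_sub_cancel_right] at this
    rw [n1] at n3
    linarith [hz.cl]
  have h4 : 2 * π / |(a : ℝ)| + C / |(a : ℝ)| < r := by
    rw [← add_div, div_lt_iff₀ ha0]
    have : (2 * π + C) / r < |(a : ℝ)| := by linarith
    rw [div_lt_iff₀ hr] at this
    linarith
  linarith

lemma ux_one {E : Type} (S : Set E) :
    UX (fun (_ : ℕ) (_ : E) => (1 : ℂ)) (fun k _ => if k = 0 then 1 else 0) S := by
  intro K
  refine ⟨1, ?_⟩
  filter_upwards [eventually_gt_atTop 0] with N hN p _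
  rcases K with _ | K
  · simp
  · rw [Finset.sum_range_succ']
    simp

lemma sqrt4 (N : ℕ) : ((Real.sqrt N : ℝ) : ℂ) ^ 4 = (N : ℂ) ^ 2 := by
  have h : (Real.sqrt N) ^ 2 = N := Real.sq_sqrt (Nat.cast_nonneg N)
  calc ((Real.sqrt N : ℝ) : ℂ) ^ 4 = (((Real.sqrt N : ℝ) ^ 2 : ℝ) : ℂ) ^ 2 := by push_cast; ring
    _ = (N : ℂ) ^ 2 := by rw [h]; norm_cast

lemma nbhd {ρ₂ τ₂ : ℝ} {z : ℂ} (hz : ‖z‖ < min ρ₂ τ₂ / 4) {u : ℂ}
    (hu : u ∈ ball (0 : ℂ) (min ρ₂ τ₂ / 2)) : z + u ∈ Rc ρ₂ τ₂ := by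
  rw [mem_ball_zero_iff] at hu
  have h0 : 0 ≤ ‖z‖ := norm_nonneg z
  have h1 := norm_add_le z u
  have h2 := Complex.abs_re_le_norm (z + u)
  have h3 := Complex.abs_im_le_norm (z + u)
  have h4 := min_le_left ρ₂ τ₂
  have h5 := min_le_right ρ₂ τ₂
  refine ⟨?_, ?_⟩
  · linarith
  · linarith

/-- the induction step: expansions -/
lemma gx_step (hLG : S_LOCG) (hLX : S_LOCX) (hUA : S_UXAN)
    {ρ τ κ c : ℝ} {s dl : ℂ → ℂ → ℂ} (hK : KD ρ τ κ c s dl) {ρ₂ τ₂ : ℝ} {Ak : ℕ → ℂ × ℂ → ℂ}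
    (hρ₂ : ρ₂ ≤ ρ) (hτ₂ : τ₂ ≤ τ) (hAk : KXD ρ₂ τ₂ s Ak) {D t m : ℕ} {ε₀ C : ℝ} (hC : 0 < C)
    {X : ℕ → ℂ → ℂ} {F : ℂ → ℂ} {A : ℕ → ℂ → ℂ} (hX : GoodD ρ τ κ ε₀ D s t X F)
    (hA : GX ρ₂ τ₂ m X F A) {a : ℤ} (ha0 : a ≠ 0) {F' zs : ℂ → ℂ}
    (hF'd : DifferentiableOn ℂ F' (Rc (3 * ρ) (3 * τ)))
    (hzd : DifferentiableOn ℂ zs (Rc (3 * ρ) (3 * τ)))
    (hlow : ∀ ψ ∈ Rc (3 * ρ) (3 * τ), (F 0).re + (s 0 ψ).re - κ / 16 ≤ (F' ψ).re)
    (hgl : ∀ᶠ N : ℕ in atTop, ∀ x y : ℝ, |x| ≤ π → |y| ≤ 1 / N →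
        ‖X N (x + y * Complex.I)‖ ≤ Real.exp (N * ((F 0).re + κ / 2)))
    (hF'z : ∀ ψ' ∈ Rc (3 * ρ) (3 * τ), CPt C ρ τ a (zs ψ') ∧
            SAD a (fun w => F w + s w ψ') ρ (zs ψ') ∧ F' ψ' = qq a F (zs ψ') + s (zs ψ') ψ')
    (hzn : ∀ ψ' ∈ Rc (3 * ρ) (3 * τ), ‖zs ψ'‖ < min ρ₂ τ₂ / 4)
    (hst : ∀ N, Differentiable ℂ (stp a X N)) :
    ∃ A' : ℕ → ℂ → ℂ, GX ρ₂ τ₂ (m + 1) (stp a X) F' A' := by
  obtain ⟨hρ0, hρ1⟩ := hK.hρ
  obtain ⟨hτ0, hτ1⟩ := hK.hτ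
  obtain ⟨hκ0, hκ1⟩ := hK.hκ
  have hρ20 := hAk.hρ
  have hτ20 := hAk.hτ
  have hm0 : 0 < min ρ₂ τ₂ := lt_min hρ20 hτ20
  have hKc : Kc ρ₂ τ₂ ⊆ Rc (3 * ρ) (3 * τ) := by
    intro w hw
    rw [Kc_mem] at hw
    exact ⟨by linarith [hw.1], by linarith [hw.2]⟩
  have hSK : Rc ρ₂ τ₂ ⊆ Kc ρ₂ τ₂ := by
    intro w hw
    rw [Kc_mem]
    exact ⟨hw.1.le, hw.2.le⟩
  have hR23 : Rc (2 * ρ) (2 * τ) ⊆ Rc (3 * ρ) (3 * τ) := Rc_mono (by linarith) (by linarith)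
  have hRr : Rc ρ₂ τ₂ ⊆ Rc (3 * ρ) (3 * τ) := hSK.trans hKc
  have hV : ∀ p ∈ Rc (3 * ρ) (3 * τ), qq a (fun w => F w + s w p) (zs p) = F' p := by
    intro p hp
    have e : qq a (fun w => F w + s w p) (zs p) = qq a F (zs p) + s (zs p) p := by
      unfold qq; ring
    rw [e, (hF'z p hp).2.2]
  have hsd : ∀ p ∈ Rc (3 * ρ) (3 * τ), DifferentiableOn ℂ (fun w => s w p) (Rc (3 * ρ) (3 * τ)) := by
    intro p hp
    have : DifferentiableOn ℂ (fun w : ℂ => (w, p)) (Rc (3 * ρ) (3 * τ)) :=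
      (differentiable_id.prodMk (differentiable_const p)).differentiableOn
    exact hK.san.comp this (fun w hw => ⟨hw, hp⟩)
  -- the constant of the second derivative
  have hc2 : ContinuousOn (fun p => deriv (deriv (qq a (fun w => F w + s w p))) (zs p))
      (Kc ρ₂ τ₂) := by
    have hKK : Kc (2 * ρ) (2 * τ) ⊆ Rc (3 * ρ) (3 * τ) := by
      intro w hw
      rw [Kc_mem] at hw
      exact ⟨by linarith [hw.1], by linarith [hw.2]⟩
    refine cont2 (isOpen_Rcx (2 * ρ) (2 * τ)) (Kc_compact (2 * ρ) (2 * τ)) ?_ (hX.Fan.mono hR23)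
      (fun p hp => (hsd p (hKc hp)).mono hR23) (hK.san.continuousOn.mono (Set.prod_mono hKK hKc))
      (Kc_compact _ _) (hzd.continuousOn.mono hKc) ?_
    · intro w hw
      rw [Kc_mem]
      exact ⟨hw.1.le, hw.2.le⟩
    · intro p hp
      exact Rc_mono (by linarith) (by linarith) (hF'z p (hKc hp)).1.mem
  have m0 : (0 : ℂ) ∈ Kc ρ₂ τ₂ := by
    rw [Kc_mem, Complex.zero_re, Complex.zero_im, abs_zero]
    exact ⟨hρ20.le, hτ20.le⟩
  obtain ⟨c', hc'0, hc'⟩ := unif_neg (Kc_compact ρ₂ τ₂) ⟨0, m0⟩ hc2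
    (fun p hp => (hF'z p (hKc hp)).2.1.neg)
  -- localisation
  have hloc := hLG ρ τ C a ℂ (Kc ρ₂ τ₂) (fun N w p => X N w * Pool.Agent.W711.HT.ker N w p)
    (fun w p => F w + s w p) zs hρ0 hρ1 hτ0 ha0 hC (Kc_compact _ _)
    (fun N p _ => (hX.an N).mul (ker_diff N p))
    (fun p hp => (hX.Fan.add (hsd p (hKc hp))).mono hR23)
    ((hX.Fan.continuousOn.comp continuousOn_fst (fun x hx => hR23 hx.1)).add
      (hK.san.continuousOn.mono (Set.prod_mono hR23 hKc)))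
    (hzd.continuousOn.mono hKc)
    (by
      intro ε hε
      filter_upwards [hX.mw (ε / 2) (by positivity), hK.mw (ε / 2) (by positivity)] with
        N h1 h2 w hw p hp
      obtain ⟨k1, k2⟩ := h1 w hw
      obtain ⟨k3, k4⟩ := h2 w (hR23 hw) p (hKc hp)
      refine ⟨mul_ne_zero k1 k3, ?_⟩
      rw [norm_mul, Real.log_mul (norm_ne_zero_iff.2 k1) (norm_ne_zero_iff.2 k3), Complex.add_re]
      rw [abs_le] at k2 k4 ⊢
      constructor
      · linarith [k2.1, k4.1]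
      · linarith [k2.2, k4.2])
    (fun p hp => ⟨(hF'z p (hKc hp)).1, (hF'z p (hKc hp)).2.1⟩)
    ⟨κ / 4, by positivity, by
      filter_upwards [hgl, hK.far] with N h1 h2 p hp x y hx1 hx2 hy
      have k1 := h1 x y hx2 hy
      have k2 := h2 x y hx1 hx2 hy p (hKc hp)
      rw [hV p (hKc hp)]
      show ‖X N (x + y * Complex.I) * Pool.Agent.W711.HT.ker N (x + y * Complex.I) p‖ ≤ _
      rw [norm_mul]
      refine (mul_le_mul k1 k2 (norm_nonneg _) (Real.exp_pos _).le).trans ?_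
      rw [← Real.exp_add, ← mul_add]
      apply Real.exp_le_exp.2
      apply mul_le_mul_of_nonneg_left _ (Nat.cast_nonneg N)
      have k3 := hlow p (hKc hp)
      linarith⟩
  obtain ⟨Bs, hBs⟩ := hK.sbd
  obtain ⟨BF, hBF⟩ := (Kc_compact ρ₂ τ₂).exists_bound_of_continuousOn
    (hX.Fan.continuousOn.mono hKc)
  obtain ⟨B, hB, hB0⟩ := hLX ρ₂ τ₂ (min ρ₂ τ₂ / 2) c' m a ℂ (Rc ρ₂ τ₂) X F A
    (fun N w p => kx s N (w, p)) Ak s zs F' (fun N p => ((Real.sqrt N : ℝ) : ℂ) ^ 3 * stp a X N p)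
    (by positivity) hc'0 hA hX.an (hX.Fan.mono hRr)
    (fun p hp u hu => nbhd (hzn p (hRr hp)) hu)
    ⟨max BF Bs, fun w hw => ⟨(hBF w (hSK hw)).trans (le_max_left _ _), fun p hp =>
      (hBs w (hRr hw) p (hRr hp)).trans (le_max_right _ _)⟩⟩
    (by
      intro N p hp
      have h1 : ContinuousOn (fun w => s w p) (Rc ρ₂ τ₂) := ((hsd p (hRr hp)).mono hRr).continuousOn
      have h2 : ContinuousOn (fun w => Pool.Agent.W711.HT.ker N w p) (Rc ρ₂ τ₂) :=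
        (ker_diff N p).continuous.continuousOn
      unfold kx
      exact (continuousOn_const.mul
        (Complex.continuous_exp.comp_continuousOn (continuousOn_const.mul h1).neg)).mul h2)
    (fun p hp => (hsd p (hRr hp)).mono hRr) hAk.ux (fun n p hp => hAk.d1 n p hp) hAk.nz
    (fun p hp => ⟨(hF'z p (hRr hp)).2.1.sn, (hV p (hRr hp)).symm, (hF'z p (hRr hp)).2.1.crit,
      hc' p (hSK hp)⟩)
    (by
      intro δ' hδ'0 hδ'
      obtain ⟨κ', hκ', h⟩ := hloc δ' hδ'0 (fun p hp => by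
        have h1 := hzn p (hKc hp)
        have h2 := Complex.abs_re_le_norm (zs p)
        have h3 := min_le_left ρ₂ τ₂
        linarith)
      refine ⟨κ' / 2, by positivity, ?_⟩
      filter_upwards [h, sq3_ev (κ := κ' / 2) (by positivity)] with N h1 h2 p hp
      have h3 := h1 p (hSK hp)
      rw [hV p (hRr hp)] at h3
      have e1 : (∫ x in (-δ')..δ', ig a N (zs p + x) *
          (X N (zs p + x) * (Complex.exp (N * s (zs p + x) p) * kx s N (zs p + x, p)))) =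
          ((Real.sqrt N : ℝ) : ℂ) ^ 3 * ∫ x in (-δ')..δ', ig a N (zs p + x) *
            (X N (zs p + x) * Pool.Agent.W711.HT.ker N (zs p + x) p) := by
        rw [← intervalIntegral.integral_const_mul]
        congr 1
        funext x
        unfold kx
        have e2 : Complex.exp (N * s (zs p + x) p) * Complex.exp (-(N * s (zs p + x) p)) = 1 := by
          rw [← Complex.exp_add, add_neg_cancel, Complex.exp_zero]
        push_cast
        linear_combination (ig a N (zs p + x) * X N (zs p + x) * ((Real.sqrt N : ℝ) : ℂ) ^ 3 *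
          Pool.Agent.W711.HT.ker N (zs p + x) p) * e2
      rw [e1, stp_eq, ← mul_sub, norm_mul]
      have h4 : ‖((Real.sqrt N : ℝ) : ℂ) ^ 3‖ = (Real.sqrt N) ^ 3 := by
        rw [norm_pow, Complex.norm_real, Real.norm_eq_abs, abs_of_nonneg (Real.sqrt_nonneg _)]
      rw [h4]
      refine (mul_le_mul h2 h3 (norm_nonneg _) (Real.exp_pos _).le).trans ?_
      rw [← Real.exp_add]
      apply le_of_eq
      congr 1
      ring)
  have hfun : (fun (N : ℕ) (z : ℂ) => (N : ℂ) ^ (2 * (m + 1)) * (-1) ^ (N * (m + 1)) *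
      Complex.exp (-(N * F' z)) * stp a X N z) = (fun (N : ℕ) (p : ℂ) => (N : ℂ) ^ (2 * m) *
      (Real.sqrt N : ℂ) * (-1) ^ (N * (m + 1)) *
      Complex.exp (-(N * F' p)) * (((Real.sqrt N : ℝ) : ℂ) ^ 3 * stp a X N p)) := by
    funext N p
    have e := sqrt4 N
    have e3 : (N : ℂ) ^ (2 * (m + 1)) = (N : ℂ) ^ (2 * m) * (N : ℂ) ^ 2 := by ring
    rw [e3, ← e]
    ring
  have hux : UX (fun (N : ℕ) (z : ℂ) => (N : ℂ) ^ (2 * (m + 1)) * (-1) ^ (N * (m + 1)) *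
      Complex.exp (-(N * F' z)) * stp a X N z) B (Rc ρ₂ τ₂) := by
    rw [hfun]
    exact hB
  refine ⟨B, hux, ?_, hB0⟩
  refine hUA _ B (Rc ρ₂ τ₂) (isOpen_Rcx _ _) ?_ hux
  filter_upwards with N
  have h1 : DifferentiableOn ℂ (fun z => Complex.exp (-((N : ℂ) * F' z))) (Rc ρ₂ τ₂) :=
    (((hF'd.mono hRr).const_mul (N : ℂ)).neg).cexp
  exact (h1.const_mul ((N : ℂ) ^ (2 * (m + 1)) * (-1) ^ (N * (m + 1)))).mul
    (hst N).differentiableOn

/-- the last step: expansion -/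
lemma last_step (hLG : S_LOCG) (hLX : S_LOCX) {ρ τ ρ₂ τ₂ : ℝ} (hρ0 : 0 < ρ) (hρ1 : ρ ≤ 1 / 4)
    (hτ0 : 0 < τ) (hρ20 : 0 < ρ₂) (hτ20 : 0 < τ₂) (hρ₂ : ρ₂ ≤ ρ) (hτ₂ : τ₂ ≤ τ) {m : ℕ} {C : ℝ}
    (hC : 0 < C) {X : ℕ → ℂ → ℂ} {F : ℂ → ℂ} {A : ℕ → ℂ → ℂ} (hXd : ∀ N, Differentiable ℂ (X N))
    (hFan : DifferentiableOn ℂ F (Rc (3 * ρ) (3 * τ))) (hmw : MW X F (Rc (2 * ρ) (2 * τ)))
    (hA : GX ρ₂ τ₂ m X F A) {a : ℤ} (ha0 : a ≠ 0) {z : ℂ} (hz1 : CPt C ρ τ a z)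
    (hz2 : SAD a F ρ z) (hzn : ‖z‖ < min ρ₂ τ₂ / 4)
    (hout : ∃ κ' : ℝ, 0 < κ' ∧ ∀ᶠ N : ℕ in atTop, ∀ x y : ℝ, ρ ≤ |x| → |x| ≤ π → |y| ≤ 1 / N →
      ‖X N (x + y * Complex.I)‖ ≤ Real.exp (N * ((qq a F z).re - κ'))) :
    ∃ y : ℕ → ℂ, y 0 ≠ 0 ∧
      UX (fun N (_ : Unit) => (N : ℂ) ^ (2 * m) * (Real.sqrt N : ℂ) * (-1) ^ (N * (m + 1)) *
        Complex.exp (-(N * qq a F z)) * upp (1 / N) fun ψ => Ea a N ψ * X N ψ * kr N ψ)
        (fun k _ => y k) Set.univ := by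
  have hm0 : 0 < min ρ₂ τ₂ := lt_min hρ20 hτ20
  have hR23 : Rc (2 * ρ) (2 * τ) ⊆ Rc (3 * ρ) (3 * τ) := Rc_mono (by linarith) (by linarith)
  have hKc : Kc ρ₂ τ₂ ⊆ Rc (3 * ρ) (3 * τ) := by
    intro w hw
    rw [Kc_mem] at hw
    exact ⟨by linarith [hw.1], by linarith [hw.2]⟩
  have hSK : Rc ρ₂ τ₂ ⊆ Kc ρ₂ τ₂ := by
    intro w hw
    rw [Kc_mem]
    exact ⟨hw.1.le, hw.2.le⟩
  have hRr : Rc ρ₂ τ₂ ⊆ Rc (3 * ρ) (3 * τ) := hSK.trans hKc
  obtain ⟨κ', hκ', hout⟩ := hout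
  have hloc := hLG ρ τ C a Unit Set.univ (fun N w _ => X N w) (fun w _ => F w) (fun _ => z)
    hρ0 hρ1 hτ0 ha0 hC isCompact_univ (fun N p _ => hXd N) (fun p _ => hFan.mono hR23)
    ((hFan.mono hR23).continuousOn.comp continuousOn_fst (fun x hx => hx.1)) continuousOn_const
    (by
      intro ε hε
      filter_upwards [hmw ε hε] with N h1 w hw p _
      exact h1 w hw)
    (fun p _ => ⟨hz1, hz2⟩)
    ⟨κ', hκ', by
      filter_upwards [hout] with N h1 p _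
      exact h1⟩
  obtain ⟨BF, hBF⟩ := (Kc_compact ρ₂ τ₂).exists_bound_of_continuousOn
    (hFan.continuousOn.mono hKc)
  have e0 : (fun w => F w + (0 : ℂ)) = F := by funext w; simp
  obtain ⟨B, hB, hB0⟩ := hLX ρ₂ τ₂ (min ρ₂ τ₂ / 2) (-(deriv (deriv (qq a F)) z).re) m a Unit
    Set.univ X F A (fun _ _ _ => 1) (fun k _ => if k = 0 then 1 else 0) (fun _ _ => 0) (fun _ => z)
    (fun _ => qq a F z) (fun N _ => upp (1 / N) fun ψ => Ea a N ψ * X N ψ * kr N ψ)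
    (by positivity) (by linarith [hz2.neg]) hA hXd (hFan.mono hRr)
    (fun p hp u hu => nbhd hzn hu)
    ⟨max BF 0, fun w hw => ⟨(hBF w (hSK hw)).trans (le_max_left _ _), fun p hp => by
      rw [norm_zero]; exact le_max_right _ _⟩⟩
    (fun _ _ _ => continuousOn_const) (fun _ _ => differentiableOn_const _)
    (ux_one _) (fun _ _ _ => differentiableOn_const _) (fun x _ => by simp)
    (fun p _ => by
      rw [e0]
      exact ⟨hz2.sn, rfl, hz2.crit, by linarith⟩)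
    (by
      intro δ' hδ'0 hδ'
      obtain ⟨κ', hκ', h⟩ := hloc δ' hδ'0 (fun p hp => by
        have h2 := Complex.abs_re_le_norm z
        have h3 := min_le_left ρ₂ τ₂
        linarith)
      refine ⟨κ', by positivity, ?_⟩
      filter_upwards [h] with N h1 p hp
      have h3 := h1 p hp
      simp only [mul_zero, Complex.exp_zero, mul_one]
      exact h3)
  exact ⟨fun k => B k (), hB0 () (Set.mem_univ _), hB⟩

end Pool.Agent.W688.AX
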